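import Pool.Agent.Results.MP_f2148a_nt.AlmostAllK
import Pool.Agent.Results.MP_f2148a_nt.SparseViolations

/-!
# Mordell's equation: definitions and the number of the exceptional `k`

The starting theorems `AlmostAllK` and `SparseViolations` on the number of the integers `k` for which `y² = x³ + k` has an
integral point of at most exponential height, or one which violates Hall's inequality and has `|x| ≤ |k|^A`, in a form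
which is used by the tools for windows.
-/

set_option autoImplicit false

namespace Pool.Agent.T9h59.HL

/-- the equation `y ^ 2 = x ^ 3 + k` has no integral solution with `|x| ≤ exp (|k| ^ (1 / 10000))` -/
def NoPoint (k : ℤ) : Prop :=
  ¬ ∃ x y : ℤ, y ^ 2 = x ^ 3 + k ∧ |(x : ℝ)| ≤ Real.exp (|(k : ℝ)| ^ ((1 : ℝ) / 10000))

/-- Hall's inequality with the constant `C` for the integral solutions of `y ^ 2 = x ^ 3 + k` with `|x| ≤ |k| ^ A` -/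
def HallUpTo (C A : ℝ) (k : ℤ) : Prop :=
  ∀ x y : ℤ, y ^ 2 = x ^ 3 + k → |(x : ℝ)| ≤ |(k : ℝ)| ^ A → max |(x : ℝ)| |(y : ℝ)| ≤ C * |(k : ℝ)| ^ 3

theorem fin_aux (X : ℝ) (P : ℤ → Prop) : {k : ℤ | P k ∧ |(k : ℝ)| ≤ X}.Finite := by
  apply (Set.finite_Icc (-(⌈X⌉)) ⌈X⌉).subset
  intro k hk
  have h1 := abs_le.1 hk.2
  have h2 : X ≤ (⌈X⌉ : ℝ) := Int.le_ceil X
  constructor
  · have h3 : (-(⌈X⌉ : ℝ)) ≤ k := by linarith [h1.1]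
    exact_mod_cast h3
  · have h3 : (k : ℝ) ≤ (⌈X⌉ : ℝ) := by linarith [h1.2]
    exact_mod_cast h3

theorem count_noPoint : ∀ ε : ℝ, 0 < ε → ∃ C : ℝ, ∀ X : ℝ, 1 ≤ X →
    {k : ℤ | (k ≠ 0 ∧ ¬ NoPoint k) ∧ |(k : ℝ)| ≤ X}.Finite ∧
      ({k : ℤ | (k ≠ 0 ∧ ¬ NoPoint k) ∧ |(k : ℝ)| ≤ X}.ncard : ℝ) ≤ C * X ^ ((99 : ℝ) / 100 + ε) := by
  intro ε hε
  obtain ⟨K, hK⟩ := Pool.Agent.Results.MP_f2148a_nt.AlmostAllK.result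
  refine ⟨K, fun X hX1 => ⟨fin_aux X _, ?_⟩⟩
  have hK0 : 0 ≤ K := by
    have := hK 1 le_rfl
    rw [Real.one_rpow, Real.one_rpow, mul_one] at this
    exact le_trans (Nat.cast_nonneg _) this
  refine le_trans ?_ ((hK X hX1).trans (mul_le_mul_of_nonneg_left
    (Real.rpow_le_rpow_of_exponent_le hX1 (by linarith)) hK0))
  have hfin : {k : ℤ | k ≠ 0 ∧ |(k : ℝ)| ≤ X ∧ ∃ x y : ℤ, y ^ 2 = x ^ 3 + k ∧
      |(x : ℝ)| ≤ Real.exp (X ^ ((1 : ℝ) / 10000))}.Finite :=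
    (fin_aux X (fun k => k ≠ 0)).subset (fun k hk => ⟨hk.1, hk.2.1⟩)
  have hsub : {k : ℤ | (k ≠ 0 ∧ ¬ NoPoint k) ∧ |(k : ℝ)| ≤ X} ⊆
      {k : ℤ | k ≠ 0 ∧ |(k : ℝ)| ≤ X ∧ ∃ x y : ℤ, y ^ 2 = x ^ 3 + k ∧
      |(x : ℝ)| ≤ Real.exp (X ^ ((1 : ℝ) / 10000))} := by
    rintro k ⟨⟨h3, h2⟩, h5⟩
    unfold NoPoint at h2
    rw [not_not] at h2
    obtain ⟨x, y, e1, e2⟩ := h2
    refine ⟨h3, h5, x, y, e1, e2.trans (Real.exp_le_exp.2 ?_)⟩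
    exact Real.rpow_le_rpow (abs_nonneg _) h5 (by norm_num)
  exact_mod_cast Set.ncard_le_ncard hsub hfin

theorem count_hall {C A : ℝ} (hC : 0 < C) (hA : 2 ≤ A) : ∀ ε : ℝ, 0 < ε → ∃ M : ℝ, ∀ X : ℝ, 1 ≤ X →
    {k : ℤ | (k ≠ 0 ∧ ¬ HallUpTo C A k) ∧ |(k : ℝ)| ≤ X}.Finite ∧
      ({k : ℤ | (k ≠ 0 ∧ ¬ HallUpTo C A k) ∧ |(k : ℝ)| ≤ X}.ncard : ℝ) ≤ M * X ^ (A / 4 + 1 / 6 + ε) := by
  intro ε hε
  obtain ⟨M, hM⟩ := Pool.Agent.Results.MP_f2148a_nt.SparseViolations.result C A ε hC hA hε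
  refine ⟨M, fun X hX1 => ⟨fin_aux X _, ?_⟩⟩
  refine le_trans ?_ (hM X hX1)
  have hfin : {k : ℤ | k ≠ 0 ∧ |(k : ℝ)| ≤ X ∧ ∃ x y : ℤ, y ^ 2 = x ^ 3 + k ∧
      C * |(k : ℝ)| ^ 3 < max |(x : ℝ)| |(y : ℝ)| ∧ |(x : ℝ)| ≤ X ^ A}.Finite :=
    (fin_aux X (fun k => k ≠ 0)).subset (fun k hk => ⟨hk.1, hk.2.1⟩)
  have hsub : {k : ℤ | (k ≠ 0 ∧ ¬ HallUpTo C A k) ∧ |(k : ℝ)| ≤ X} ⊆
      {k : ℤ | k ≠ 0 ∧ |(k : ℝ)| ≤ X ∧ ∃ x y : ℤ, y ^ 2 = x ^ 3 + k ∧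
      C * |(k : ℝ)| ^ 3 < max |(x : ℝ)| |(y : ℝ)| ∧ |(x : ℝ)| ≤ X ^ A} := by
    rintro k ⟨⟨h3, h2⟩, h5⟩
    unfold HallUpTo at h2
    push Not at h2
    obtain ⟨x, y, e1, e2, e3⟩ := h2
    exact ⟨h3, h5, x, y, e1, e3, e2.trans (Real.rpow_le_rpow (abs_nonneg _) h5 (by linarith))⟩
  exact_mod_cast Set.ncard_le_ncard hsub hfin

/-- a good bound for the integers `k` -/
def Few (Good : ℤ → Prop) (s : ℝ) : Prop := ∀ ε : ℝ, 0 < ε → ∃ C : ℝ, ∀ X : ℝ, 1 ≤ X →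
    {k : ℤ | (k ≠ 0 ∧ ¬ Good k) ∧ |(k : ℝ)| ≤ X}.Finite ∧
      ({k : ℤ | (k ≠ 0 ∧ ¬ Good k) ∧ |(k : ℝ)| ≤ X}.ncard : ℝ) ≤ C * X ^ (s + ε)

end Pool.Agent.T9h59.HL
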